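import Pool.Agent.N349.DD2

/-!
# Uniform distant patterns: `12...(m-2)m(m-1)` is not asymptotically least avoided (MP_0bc917)
-/

namespace Pool.Agent.Results.MP_0bc917_co.TauNotLeast

open Pool.Agent.R153.GP Pool.Agent.N349.DD

/-- The permutation `π` of `[n]` contains the uniform distant pattern `dist_r(q)`, where the pattern
`q` of size `m` is given by its values: there are positions `i 0, i 1, ..., i (m-1)`, each at least
`r + 1` larger than the preceding one, whose entries are in the same relative order as `q`. -/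
def Contains {n m : ℕ} (r : ℕ) (q : Fin m → ℕ) (π : Equiv.Perm (Fin n)) : Prop :=
  ∃ i : Fin m → Fin n, (∀ a b : Fin m, (b : ℕ) = a + 1 → (i a : ℕ) + (r + 1) ≤ i b) ∧
    ∀ a b, π (i a) < π (i b) ↔ q a < q b

/-- The number of permutations of `[n]` avoiding `dist_r(q)`. -/
noncomputable def av (n r : ℕ) {m : ℕ} (q : Fin m → ℕ) : ℕ :=
  Nat.card {π : Equiv.Perm (Fin n) // ¬ Contains r q π}

/-- The pattern `12...(m-2) m (m-1)`, with values `0, ..., m-1`. -/
def tau (m : ℕ) : Fin m → ℕ := fun a =>
  if (a : ℕ) + 2 = m then m - 1 else if (a : ℕ) + 1 = m then m - 2 else a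

/-- The statement of Q1 for one pair `(m, r)`: for all large `n`, no pattern of size `m` is avoided,
with gaps `r`, by fewer permutations of `[n]` than `τ_m = 12...(m-2) m (m-1)`. -/
def TauLeast (m r : ℕ) : Prop :=
  ∃ n₀ : ℕ, ∀ n > n₀, ∀ q : Equiv.Perm (Fin m), av n r (tau m) ≤ av n r (fun a => (q a : ℕ))

/-- The statement Q1 itself. -/
def Q1 : Prop := ∀ m r : ℕ, 3 ≤ m → 1 ≤ r → TauLeast m r

/-- The pattern `12 ⊕ σ`. -/
def pre12 {s : ℕ} (σ : Fin s → ℕ) : Fin (s + 2) → ℕ :=
  Fin.cons 0 (Fin.cons 1 (fun j => 2 + σ j) : Fin (s + 1) → ℕ)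

/-- The pattern `21 ⊕ σ`. -/
def pre21 {s : ℕ} (σ : Fin s → ℕ) : Fin (s + 2) → ℕ :=
  Fin.cons 1 (Fin.cons 0 (fun j => 2 + σ j) : Fin (s + 1) → ℕ)

theorem gap_all {n m : ℕ} {r : ℕ} {i : Fin m → Fin n}
    (h : ∀ a b : Fin m, (b : ℕ) = a + 1 → (i a : ℕ) + (r + 1) ≤ i b) :
    ∀ d : ℕ, ∀ a b : Fin m, (b : ℕ) = a + 1 + d → (i a : ℕ) + (r + 1) ≤ i b := by
  intro d
  induction d with
  | zero => exact fun a b hab => h a b hab
  | succ d ih =>
    intro a b hab
    have h1 := ih a ⟨b - 1, by omega⟩ (by simp only; omega)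
    have h2 := h ⟨b - 1, by omega⟩ b (by simp only; omega)
    omega

theorem fwd {n s : ℕ} {r : ℕ} {σ : Fin s → ℕ} {q : Fin (s + 2) → ℕ} {π : Equiv.Perm (Fin n)}
    (hq : ∀ j : Fin s, q j.succ.succ = 2 + σ j) (h0 : q 0 < 2) (h1 : q 1 < 2)
    (h : Contains r q π) : ∃ x y : Fin n, (x : ℕ) + r < y ∧ (π x < π y ↔ q 0 < q 1) ∧
      (π y < π x ↔ q 1 < q 0) ∧ D σ (Gap r) r π y (π x) ∧ D σ (Gap r) r π y (π y) := by
  obtain ⟨i, hi, ho⟩ := h
  have hg := gap_all hi
  have hD : ∀ t : Fin (s + 2), q t < 2 → D σ (Gap r) r π (i 1) (π (i t)) := by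
    intro t ht
    refine ⟨fun j => i j.succ.succ, fun j => ?_, fun j j' hj => ?_, fun j => ?_, fun j j' => ?_⟩
    · have := hg j 1 j.succ.succ (by simp [Fin.val_succ]; omega)
      simp only
      omega
    · exact hi _ _ (by simp [Fin.val_succ, hj])
    · rw [ho, hq]
      omega
    · simp only
      rw [ho, hq, hq]
      omega
  refine ⟨i 0, i 1, ?_, ho 0 1, ho 1 0, hD 0 h0, hD 1 h1⟩
  have := hi 0 1 (by simp)
  omega

theorem bwd {n s : ℕ} {r : ℕ} {σ : Fin s → ℕ} {q : Fin (s + 2) → ℕ} {π : Equiv.Perm (Fin n)}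
    (hq : ∀ j : Fin s, q j.succ.succ = 2 + σ j) (h0 : q 0 < 2) (h1 : q 1 < 2)
    {x y : Fin n} (hxy : (x : ℕ) + r < y) (h01 : π x < π y ↔ q 0 < q 1)
    (h10 : π y < π x ↔ q 1 < q 0) {v : Fin n} (hx : π x ≤ v) (hy : π y ≤ v)
    (hD : D σ (Gap r) r π y v) : Contains r q π := by
  obtain ⟨a, a1, a2, a3, a4⟩ := hD
  refine ⟨Fin.cons x (Fin.cons y a : Fin (s + 1) → Fin n), ?_, ?_⟩
  · intro b c hbc
    induction b using Fin.cases with
    | zero =>
      induction c using Fin.cases with
      | zero => simp at hbc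
      | succ c =>
        induction c using Fin.cases with
        | zero =>
          simp only [Fin.cons_zero, Fin.cons_succ]
          omega
        | succ c => simp [Fin.val_succ] at hbc
    | succ b =>
      induction c using Fin.cases with
      | zero => simp at hbc
      | succ c =>
        induction b using Fin.cases with
        | zero =>
          induction c using Fin.cases with
          | zero => simp at hbc
          | succ c =>
            simp only [Fin.cons_zero, Fin.cons_succ]
            have := a1 c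
            omega
        | succ b =>
          induction c using Fin.cases with
          | zero => simp [Fin.val_succ] at hbc
          | succ c =>
            simp only [Fin.cons_succ]
            exact a2 b c (by simpa [Fin.val_succ] using hbc)
  · have e0 : (Fin.cons x (Fin.cons y a : Fin (s + 1) → Fin n) : Fin (s + 2) → Fin n) 0 = x :=
      Fin.cons_zero _ _
    have e1 : (Fin.cons x (Fin.cons y a : Fin (s + 1) → Fin n) : Fin (s + 2) → Fin n)
        (Fin.succ 0) = y := by
      rw [Fin.cons_succ, Fin.cons_zero]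
    have e2 : ∀ j : Fin s, (Fin.cons x (Fin.cons y a : Fin (s + 1) → Fin n) :
        Fin (s + 2) → Fin n) j.succ.succ = a j := by
      intro j
      rw [Fin.cons_succ, Fin.cons_succ]
    have q1 : q (Fin.succ 0) = q 1 := rfl
    intro b c
    induction b using Fin.cases with
    | zero =>
      induction c using Fin.cases with
      | zero => simp
      | succ c =>
        induction c using Fin.cases with
        | zero => rw [e0, e1, q1]; exact h01
        | succ c =>
          rw [e0, e2, hq]
          have := lt_of_le_of_lt hx (a3 c)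
          constructor
          · intro _; omega
          · intro _; exact this
    | succ b =>
      induction b using Fin.cases with
      | zero =>
        induction c using Fin.cases with
        | zero => rw [e0, e1, q1]; exact h10
        | succ c =>
          induction c using Fin.cases with
          | zero => rw [e1]; simp
          | succ c =>
            rw [e1, e2, hq, q1]
            have := lt_of_le_of_lt hy (a3 c)
            constructor
            · intro _; omega
            · intro _; exact this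
      | succ b =>
        induction c using Fin.cases with
        | zero =>
          rw [e0, e2, hq]
          have := lt_of_le_of_lt hx (a3 b)
          constructor
          · intro h'; exact absurd h' (not_lt.mpr this.le)
          · intro h'; omega
        | succ c =>
          induction c using Fin.cases with
          | zero =>
            rw [e1, e2, hq, q1]
            have := lt_of_le_of_lt hy (a3 b)
            constructor
            · intro h'; exact absurd h' (not_lt.mpr this.le)
            · intro h'; omega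
          | succ c =>
            rw [e2, e2, hq, hq, a4 b c]
            omega

theorem contains12 {n s : ℕ} (r : ℕ) (σ : Fin s → ℕ) (π : Equiv.Perm (Fin n)) :
    ¬ Contains r (pre12 σ) π ↔ V12 σ (Gap r) r r π := by
  have hq : ∀ j : Fin s, pre12 σ j.succ.succ = 2 + σ j := by
    intro j
    unfold pre12
    rw [Fin.cons_succ, Fin.cons_succ]
  have q0 : pre12 σ 0 = 0 := by
    unfold pre12
    rw [Fin.cons_zero]
  have q1 : pre12 σ 1 = 1 := by
    change pre12 σ (Fin.succ 0) = 1
    unfold pre12
    rw [Fin.cons_succ, Fin.cons_zero]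
  constructor
  · intro h x y hxy hlt hD
    apply h
    refine bwd hq (by omega) (by omega) hxy ?_ ?_ hlt.le le_rfl hD
    · rw [q0, q1]
      simp [hlt]
    · rw [q0, q1]
      simp [hlt.le]
  · intro h hc
    obtain ⟨x, y, hxy, h01, -, -, hD⟩ := fwd hq (by omega) (by omega) hc
    exact h x y hxy (h01.mpr (by omega)) hD

theorem contains21 {n s : ℕ} (r : ℕ) (σ : Fin s → ℕ) (π : Equiv.Perm (Fin n)) :
    ¬ Contains r (pre21 σ) π ↔ V21 σ (Gap r) r r π := by
  have hq : ∀ j : Fin s, pre21 σ j.succ.succ = 2 + σ j := by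
    intro j
    unfold pre21
    rw [Fin.cons_succ, Fin.cons_succ]
  have q0 : pre21 σ 0 = 1 := by
    unfold pre21
    rw [Fin.cons_zero]
  have q1 : pre21 σ 1 = 0 := by
    change pre21 σ (Fin.succ 0) = 0
    unfold pre21
    rw [Fin.cons_succ, Fin.cons_zero]
  constructor
  · intro h x y hxy hlt hD
    apply h
    refine bwd hq (by omega) (by omega) hxy ?_ ?_ le_rfl hlt.le hD
    · rw [q0, q1]
      simp [hlt.le]
    · rw [q0, q1]
      simp [hlt]
  · intro h hc
    obtain ⟨x, y, hxy, -, h10, hD, -⟩ := fwd hq (by omega) (by omega) hc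
    exact h x y hxy (h10.mpr (by omega)) hD

/-- The strict inequality for `21 ⊕ σ` and `12 ⊕ σ`. -/
theorem strict_lt {n r s : ℕ} (hs : 1 ≤ s) (hr : 1 ≤ r) (hn : (s + 1) * (r + 1) + 2 ≤ n)
    (σ : Equiv.Perm (Fin s)) :
    av n r (pre21 (fun j => (σ j : ℕ))) < av n r (pre12 (fun j => (σ j : ℕ))) := by
  obtain ⟨t, rfl⟩ := Nat.exists_eq_add_of_le' hs
  obtain ⟨N, hN⟩ := Nat.exists_eq_add_of_le' hn
  have h := strict_gap N t r hr σ (n := n) (by rw [hN]; ring)
  unfold av
  simp only [contains12, contains21]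
  exact h

/-- The weak inequality for `21 ⊕ σ` and `12 ⊕ σ`. -/
theorem general (n r : ℕ) {s : ℕ} (σ : Fin s → ℕ) :
    av n r (pre21 σ) ≤ av n r (pre12 σ) := by
  have h := card_le (n := n) (τ := σ) (Q := Gap r) (g := r) r
  unfold av
  simp only [contains12, contains21]
  exact h

/-- reverse-complement -/
def rc {n : ℕ} (w : Equiv.Perm (Fin n)) : Equiv.Perm (Fin n) := Fin.revPerm * w * Fin.revPerm

theorem rc_rc {n : ℕ} (w : Equiv.Perm (Fin n)) : rc (rc w) = w := by
  unfold rc
  ext x
  simp

theorem rc_apply {n : ℕ} (w : Equiv.Perm (Fin n)) (x : Fin n) : rc w x.rev = (w x).rev := by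
  unfold rc
  simp

theorem contains_rc {n m : ℕ} {r : ℕ} {q q' : Fin m → ℕ}
    (hq : ∀ a b, q b.rev < q a.rev ↔ q' a < q' b) {π : Equiv.Perm (Fin n)}
    (h : Contains r q π) : Contains r q' (rc π) := by
  obtain ⟨i, hi, ho⟩ := h
  refine ⟨fun t => (i t.rev).rev, fun a b hab => ?_, fun a b => ?_⟩
  · have h1 := hi b.rev a.rev (by rw [Fin.val_rev, Fin.val_rev]; omega)
    simp only [Fin.val_rev]
    have h2 := (i a.rev).2
    omega
  · simp only
    rw [rc_apply, rc_apply, Fin.rev_lt_rev, ho]
    exact hq a b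

theorem av_rc {n m : ℕ} (r : ℕ) {q q' : Fin m → ℕ}
    (hq : ∀ a b, q b.rev < q a.rev ↔ q' a < q' b) : av n r q = av n r q' := by
  have hq' : ∀ a b, q' b.rev < q' a.rev ↔ q a < q b := by
    intro a b
    have := hq b.rev a.rev
    rw [Fin.rev_rev, Fin.rev_rev] at this
    exact this.symm
  unfold av
  apply Nat.card_congr
  refine ⟨fun π => ⟨rc π.1, fun h => π.2 ?_⟩, fun π => ⟨rc π.1, fun h => π.2 ?_⟩, ?_, ?_⟩
  · have := contains_rc hq' h
    rwa [rc_rc] at this
  · have := contains_rc hq h
    rwa [rc_rc] at this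
  · intro π
    exact Subtype.ext (rc_rc π.1)
  · intro π
    exact Subtype.ext (rc_rc π.1)


/-- reverse -/
def rv {n : ℕ} (w : Equiv.Perm (Fin n)) : Equiv.Perm (Fin n) := w * Fin.revPerm

theorem rv_rv {n : ℕ} (w : Equiv.Perm (Fin n)) : rv (rv w) = w := by
  unfold rv
  ext x
  simp

theorem rv_apply {n : ℕ} (w : Equiv.Perm (Fin n)) (x : Fin n) : rv w x.rev = w x := by
  unfold rv
  simp

theorem contains_rv {n m : ℕ} {r : ℕ} {q q' : Fin m → ℕ}
    (hq : ∀ a b, q a.rev < q b.rev ↔ q' a < q' b) {π : Equiv.Perm (Fin n)}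
    (h : Contains r q π) : Contains r q' (rv π) := by
  obtain ⟨i, hi, ho⟩ := h
  refine ⟨fun t => (i t.rev).rev, fun a b hab => ?_, fun a b => ?_⟩
  · have h1 := hi b.rev a.rev (by rw [Fin.val_rev, Fin.val_rev]; omega)
    simp only [Fin.val_rev]
    have h2 := (i a.rev).2
    omega
  · simp only
    rw [rv_apply, rv_apply, ho]
    exact hq a b

theorem av_rv {n m : ℕ} (r : ℕ) {q q' : Fin m → ℕ}
    (hq : ∀ a b, q a.rev < q b.rev ↔ q' a < q' b) : av n r q = av n r q' := by
  have hq' : ∀ a b, q' a.rev < q' b.rev ↔ q a < q b := by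
    intro a b
    have := hq a.rev b.rev
    rw [Fin.rev_rev, Fin.rev_rev] at this
    exact this.symm
  unfold av
  apply Nat.card_congr
  refine ⟨fun π => ⟨rv π.1, fun h => π.2 ?_⟩, fun π => ⟨rv π.1, fun h => π.2 ?_⟩, ?_, ?_⟩
  · have := contains_rv hq' h
    rwa [rv_rv] at this
  · have := contains_rv hq h
    rwa [rv_rv] at this
  · intro π
    exact Subtype.ext (rv_rv π.1)
  · intro π
    exact Subtype.ext (rv_rv π.1)

theorem av_same {n m : ℕ} (r : ℕ) {q q' : Fin m → ℕ}
    (hq : ∀ a b, q a < q b ↔ q' a < q' b) : av n r q = av n r q' := by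
  have h1 : av n r q = av n r (fun a => q a.rev) := av_rv r (fun a b => Iff.rfl)
  rw [h1]
  apply av_rv
  intro a b
  rw [Fin.rev_rev, Fin.rev_rev]
  exact hq a b

theorem av_comp {n m : ℕ} (r : ℕ) {q q' : Fin m → ℕ}
    (hq : ∀ a b, q b < q a ↔ q' a < q' b) : av n r q = av n r q' := by
  have h1 : av n r q = av n r (fun a => q a.rev) := av_rv r (fun a b => Iff.rfl)
  rw [h1]
  apply av_rc
  intro a b
  rw [Fin.rev_rev, Fin.rev_rev]
  exact hq a b

theorem exists_perm_of {m : ℕ} (f : Fin m → ℕ) (h1 : ∀ a, f a < m) (h2 : Function.Injective f) :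
    ∃ q : Equiv.Perm (Fin m), (fun a => (q a : ℕ)) = f := by
  have hinj : Function.Injective (fun a : Fin m => (⟨f a, h1 a⟩ : Fin m)) :=
    fun a b h => h2 (congrArg Fin.val h)
  exact ⟨Equiv.ofBijective _ (Finite.injective_iff_bijective.1 hinj), rfl⟩

theorem tau_lt {m : ℕ} (a : Fin m) : tau m a < m := by
  unfold tau
  have := a.2
  split_ifs <;> omega

theorem tau_inj {m : ℕ} : Function.Injective (tau m) := by
  intro a b h
  unfold tau at h
  have ha := a.2
  have hb := b.2
  apply Fin.ext
  split_ifs at h <;> omega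

theorem tau_pre12 {s : ℕ} (hs : 2 ≤ s) : tau (s + 2) = pre12 (tau s) := by
  funext t
  unfold pre12
  induction t using Fin.cases with
  | zero =>
    rw [Fin.cons_zero]
    unfold tau
    simp only [Fin.val_zero]
    split_ifs <;> omega
  | succ t =>
    rw [Fin.cons_succ]
    induction t using Fin.cases with
    | zero =>
      rw [Fin.cons_zero]
      unfold tau
      simp only [Fin.val_succ, Fin.val_zero]
      split_ifs <;> omega
    | succ t =>
      rw [Fin.cons_succ]
      unfold tau
      simp only [Fin.val_succ]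
      have := t.2
      split_ifs <;> omega

theorem pre21_zero {s : ℕ} (f : Fin s → ℕ) : pre21 f 0 = 1 := by
  unfold pre21
  rw [Fin.cons_zero]

theorem pre21_one {s : ℕ} (f : Fin s → ℕ) : pre21 f (Fin.succ 0) = 0 := by
  unfold pre21
  rw [Fin.cons_succ, Fin.cons_zero]

theorem pre21_two {s : ℕ} (f : Fin s → ℕ) (j : Fin s) : pre21 f j.succ.succ = 2 + f j := by
  unfold pre21
  rw [Fin.cons_succ, Fin.cons_succ]

theorem exists_pre21 {s : ℕ} (f : Fin s → ℕ) (h1 : ∀ a, f a < s) (h2 : Function.Injective f) :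
    ∃ q : Equiv.Perm (Fin (s + 2)), (fun a => (q a : ℕ)) = pre21 f := by
  apply exists_perm_of
  · intro a
    induction a using Fin.cases with
    | zero => rw [pre21_zero]; omega
    | succ a =>
      induction a using Fin.cases with
      | zero => rw [pre21_one]; omega
      | succ a =>
        rw [pre21_two]
        have := h1 a
        omega
  · intro a b h
    induction a using Fin.cases with
    | zero =>
      induction b using Fin.cases with
      | zero => rfl
      | succ b =>
        induction b using Fin.cases with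
        | zero => rw [pre21_zero, pre21_one] at h; omega
        | succ b => rw [pre21_zero, pre21_two] at h; omega
    | succ a =>
      induction a using Fin.cases with
      | zero =>
        induction b using Fin.cases with
        | zero => rw [pre21_zero, pre21_one] at h; omega
        | succ b =>
          induction b using Fin.cases with
          | zero => rfl
          | succ b => rw [pre21_one, pre21_two] at h; omega
      | succ a =>
        induction b using Fin.cases with
        | zero => rw [pre21_zero, pre21_two] at h; omega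
        | succ b =>
          induction b using Fin.cases with
          | zero => rw [pre21_one, pre21_two] at h; omega
          | succ b =>
            rw [pre21_two, pre21_two] at h
            rw [h2 (show f a = f b by omega)]

/-- For `m ≥ 4`, the pattern `21 ⊕ τ_{m-2}` is avoided strictly less often than `τ_m`. -/
theorem four {m r n : ℕ} (hm : 4 ≤ m) (hr : 1 ≤ r) (hn : (m - 1) * (r + 1) + 2 ≤ n) :
    ∃ q : Equiv.Perm (Fin m), av n r (fun a => (q a : ℕ)) < av n r (tau m) := by
  obtain ⟨s, rfl⟩ := Nat.exists_eq_add_of_le' (show 2 ≤ m by omega)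
  obtain ⟨q, hq⟩ := exists_pre21 (tau s) (fun a => tau_lt a) tau_inj
  obtain ⟨σ, hσ⟩ := exists_perm_of (tau s) (fun a => tau_lt a) tau_inj
  refine ⟨q, ?_⟩
  rw [hq, tau_pre12 (by omega), ← hσ]
  exact strict_lt (by omega) hr hn σ

/-- The case `m = 3`. -/
theorem three (n r : ℕ) (q : Equiv.Perm (Fin 3)) :
    av n r (tau 3) ≤ av n r (fun a => (q a : ℕ)) := by
  have hd : ∀ q : Equiv.Perm (Fin 3),
      (∀ a b : Fin 3, tau 3 a < tau 3 b ↔ (q a : ℕ) < q b) ∨
      (∀ a b : Fin 3, tau 3 a.rev < tau 3 b.rev ↔ (q a : ℕ) < q b) ∨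
      (∀ a b : Fin 3, tau 3 b < tau 3 a ↔ (q a : ℕ) < q b) ∨
      (∀ a b : Fin 3, tau 3 b.rev < tau 3 a.rev ↔ (q a : ℕ) < q b) ∨
      (∀ a b : Fin 3, pre12 (fun _ : Fin 1 => 0) a < pre12 (fun _ : Fin 1 => 0) b ↔
        (q a : ℕ) < q b) ∨
      (∀ a b : Fin 3, pre12 (fun _ : Fin 1 => 0) a.rev < pre12 (fun _ : Fin 1 => 0) b.rev ↔
        (q a : ℕ) < q b) := by
    decide
  have h3 : av n r (tau 3) ≤ av n r (pre12 (fun _ : Fin 1 => 0)) := by
    have h : av n r (tau 3) = av n r (pre21 (fun _ : Fin 1 => 0)) := by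
      apply av_rc
      decide
    rw [h]
    exact general n r _
  rcases hd q with h | h | h | h | h | h
  · exact (av_same r h).le
  · exact (av_rv r h).le
  · exact (av_comp r h).le
  · exact (av_rc r h).le
  · rw [← av_same (q := pre12 (fun _ : Fin 1 => 0)) r h]
    exact h3
  · rw [← av_rv (q := pre12 (fun _ : Fin 1 => 0)) r h]
    exact h3

/-- **MP_0bc917, Q1 is false**, and the pairs `(m, r)` for which its conclusion holds are exactly
those with `m = 3`.  For `m ≥ 4`, `r ≥ 1` and all `n ≥ (m - 1)(r + 1) + 2` some pattern of size `m`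
(namely `21 ⊕ τ_{m-2}`) is avoided by strictly fewer permutations of `[n]` than `τ_m`; more
generally `|Av_n(dist_r(21 ⊕ σ))| < |Av_n(dist_r(12 ⊕ σ))|` for every nonempty pattern `σ` of
size `s`, every `r ≥ 1` and every `n ≥ (s + 1)(r + 1) + 2`. -/
theorem result :
    ¬ Q1 ∧
    (∀ m r : ℕ, 3 ≤ m → 1 ≤ r → (TauLeast m r ↔ m = 3)) ∧
    (∀ m r n : ℕ, 4 ≤ m → 1 ≤ r → (m - 1) * (r + 1) + 2 ≤ n →
      ∃ q : Equiv.Perm (Fin m), av n r (fun a => (q a : ℕ)) < av n r (tau m)) ∧
    (∀ s r n : ℕ, 1 ≤ s → 1 ≤ r → (s + 1) * (r + 1) + 2 ≤ n → ∀ σ : Equiv.Perm (Fin s),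
      av n r (pre21 (fun j => (σ j : ℕ))) < av n r (pre12 (fun j => (σ j : ℕ)))) := by
  have h2 : ∀ m r : ℕ, 3 ≤ m → 1 ≤ r → (TauLeast m r ↔ m = 3) := by
    intro m r hm hr
    constructor
    · rintro ⟨n₀, h⟩
      by_contra hne
      obtain ⟨q, hq⟩ := four (m := m) (r := r) (n := n₀ + 1 + ((m - 1) * (r + 1) + 2)) (by omega) hr
        (by omega)
      exact absurd (h _ (by omega) q) (not_le.mpr hq)
    · rintro rfl
      exact ⟨0, fun n _ q => three n r q⟩
  refine ⟨?_, h2, fun m r n hm hr hn => four hm hr hn, fun s r n hs hr hn σ => strict_lt hs hr hn σ⟩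
  intro h
  have := (h2 4 1 (by omega) le_rfl).1 (h 4 1 (by omega) le_rfl)
  omega

end Pool.Agent.Results.MP_0bc917_co.TauNotLeast
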